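import Pool.Agent.Q2N.Stmts

/-!
# SG2: one sign
-/

set_option autoImplicit false

namespace Pool.Agent.Q2N.H76

open Pool.Agent.UW Pool.Agent.Q2N

section ord

variable {K : Type} [Field K] {φ : RingAut K}

/-- `x` has order `m` -/
def Ord (x : SkewLaurent K φ) (m : ℤ) : Prop := x ∈ SkewLaurent.P K φ m ∧ x.coeff m ≠ 0

theorem Ord.mul {x y : SkewLaurent K φ} {m k : ℤ} (hx : Ord x m) (hy : Ord y k) :
    Ord (x * y) (m + k) := by
  refine ⟨SkewLaurent.mul_mem_P hx.1 hy.1, ?_⟩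
  rw [SkewLaurent.coeff_mul_lead hx.1 hy.1]
  exact mul_ne_zero hx.2 ((map_ne_zero_iff _ (φ ^ m).injective).2 hy.2)

theorem ord_one : Ord (1 : SkewLaurent K φ) 0 := by
  refine ⟨SkewLaurent.one_mem_P, ?_⟩
  rw [SkewLaurent.coeff_one, if_pos rfl]
  exact one_ne_zero

theorem Ord.pow {x : SkewLaurent K φ} {m : ℤ} (hx : Ord x m) (n : ℕ) : Ord (x ^ n) (n * m) := by
  induction n with
  | zero =>
    rw [pow_zero]
    have h : ((0 : ℕ) : ℤ) * m = 0 := by simp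
    rw [h]
    exact ord_one
  | succ n ih =>
    rw [pow_succ]
    have h : ((n + 1 : ℕ) : ℤ) * m = (n : ℤ) * m + m := by push_cast; ring
    rw [h]
    exact ih.mul hx

theorem Ord.nonneg {x : SkewLaurent K φ} {m : ℤ} (hx : Ord x m)
    (h : x ∈ SkewLaurent.P K φ 0) : 0 ≤ m := by
  by_contra hm
  push Not at hm
  exact hx.2 (h m hm)

end ord

theorem sg2 : Sg2Stmt := by
  intro F K _ _ _ S D _ _ E A hF hres
  by_cases hall : ∀ x ∈ A, E.χ x ∈ SkewLaurent.P K S.σ 0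
  · exact Or.inr fun x hx => ⟨hall x hx, hres x hx (hall x hx)⟩
  left
  push Not at hall
  obtain ⟨b, hbA, hb⟩ := hall
  intro x hxA hx
  by_contra hnc
  push Not at hnc
  have hinj : ∀ d : D, d ≠ 0 → E.χ d ≠ 0 := fun d hd h => hd ((map_eq_zero E.χ).1 h)
  -- the element of negative order
  have hb0 : b ≠ 0 := by
    rintro rfl
    rw [map_zero] at hb
    exact hb (zero_mem _)
  obtain ⟨q, hq⟩ := SkewLaurent.exists_order (hinj b hb0)
  have hqneg : q < 0 := by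
    by_contra h
    push Not at h
    exact hb (SkewLaurent.P_anti h hq.1)
  -- the element of positive order
  obtain ⟨r, hr⟩ := hres x hxA hx
  obtain ⟨a, ha⟩ : ∃ a, a = x - algebraMap F D r := ⟨_, rfl⟩
  have haA : a ∈ A := by
    rw [ha]
    exact sub_mem hxA (algebraMap_mem A r)
  have ha0 : a ≠ 0 := by
    rw [ha, sub_ne_zero]
    exact hnc r
  obtain ⟨p, hp⟩ := SkewLaurent.exists_order (hinj a ha0)
  have hppos : 0 < p := by
    by_contra h
    push Not at h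
    have h1 : ∀ i ≤ 0, (E.χ a).coeff i = 0 := by
      intro i hi
      rw [ha, map_sub, E.const, SkewLaurent.coeff_sub, sgl_coeff]
      by_cases h0 : i = 0
      · rw [if_pos h0, h0, hr, sub_self]
      · rw [if_neg h0, hx i (by lia), sub_zero]
    exact hp.2 (h1 p h)
  -- a nonconstant function
  obtain ⟨f, hf⟩ := S.nonconst
  obtain ⟨a₁, ha₁, a₂, ha₂, h20, he⟩ := hF (E.ιK f)
  have he' : E.ιK f * a₂ = a₁ := by
    rw [he, mul_assoc, inv_mul_cancel₀ h20, mul_one]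
  obtain ⟨n, hn⟩ := SkewLaurent.exists_order (hinj a₂ h20)
  -- an element of order `-n`
  obtain ⟨c, hcA, hc⟩ : ∃ c ∈ A, Ord (E.χ c) (-n) := by
    rcases lt_trichotomy n 0 with hn0 | hn0 | hn0
    · obtain ⟨k, hk⟩ : ∃ k : ℕ, (k : ℤ) = -n := ⟨(-n).toNat, by lia⟩
      obtain ⟨i, hi⟩ : ∃ i : ℕ, (i : ℤ) = p - 1 := ⟨(p - 1).toNat, by lia⟩
      refine ⟨a₂ ^ i * a ^ k, mul_mem (pow_mem ha₂ i) (pow_mem haA k), ?_⟩
      rw [map_mul, map_pow, map_pow]
      have h1 := (Ord.pow hn i).mul (Ord.pow hp k)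
      rw [hi, hk] at h1
      have h2 : (p - 1) * n + -n * p = -n := by ring
      rwa [h2] at h1
    · refine ⟨1, one_mem A, ?_⟩
      rw [map_one, hn0, neg_zero]
      exact ord_one
    · obtain ⟨k, hk⟩ : ∃ k : ℕ, (k : ℤ) = n := ⟨n.toNat, by lia⟩
      obtain ⟨i, hi⟩ : ∃ i : ℕ, (i : ℤ) = -q - 1 := ⟨(-q - 1).toNat, by lia⟩
      refine ⟨a₂ ^ i * b ^ k, mul_mem (pow_mem ha₂ i) (pow_mem hbA k), ?_⟩
      rw [map_mul, map_pow, map_pow]
      have h1 := (Ord.pow hn i).mul (Ord.pow hq k)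
      rw [hi, hk] at h1
      have h2 : (-q - 1) * n + n * q = -n := by ring
      rwa [h2] at h1
  have h3 : Ord (E.χ (a₂ * c)) 0 := by
    rw [map_mul]
    have h4 := Ord.mul hn hc
    rwa [add_neg_cancel] at h4
  have h5 : ∀ i, (E.χ (a₁ * c)).coeff i = f * (E.χ (a₂ * c)).coeff i := by
    intro i
    rw [← he', mul_assoc, map_mul, E.χ_ι, sgl_mul_coeff, zpow_zero, sub_zero]
    rfl
  obtain ⟨r₂, hr₂⟩ := hres (a₂ * c) (mul_mem ha₂ hcA) h3.1
  obtain ⟨r₁, hr₁⟩ := hres (a₁ * c) (mul_mem ha₁ hcA) (fun i hi => by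
    rw [h5, h3.1 i hi, mul_zero])
  rw [h5, hr₂] at hr₁
  have h6 : algebraMap F K r₂ ≠ 0 := by
    rw [← hr₂]
    exact h3.2
  apply hf (r₁ / r₂)
  rw [map_div₀, ← hr₁, mul_div_cancel_right₀ _ h6]

end Pool.Agent.Q2N.H76
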